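import Mathlib
import Pool.Agent.X114.FM6
import Pool.Agent.H855R2.SF.Dir

/-!
# Moments over families of L-functions of `GL(m)`, and the Lindelöf hypothesis, by undersampling

Let `F_N` be finite sets of cuspidal representations `π` of `GL(m)` with analytic conductor `C_π ≤ N` (for example all of
them), with weights `v_N(π) ≥ 0` of total mass `O(N^(κ + ε))`, and let `k > 0` be real.  We consider the weighted moments

  `M_k(N, t) = ∑_{π ∈ F_N} v_N(π) |L(1/2 + it, π)|^k`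

at the central point and at heights `|t| ≤ N^ρ`, `ρ < δ`, where `δ > 0` is fixed.

* (moments) For every `N` let `D_N` be a set of reals whose distance to every point of `[-N^δ, N^δ]` tends to `0` as
  `N → ∞`, however slowly, and let `E` be any set of real numbers of positive logarithmic capacity (it may have Hausdorff
  dimension `0`).  The bound `M_k(N, t) = O(N^(κ + ε))` holds for all `|t| ≤ N^ρ` - in particular at the central
  point `t = 0`, which need not be near any point of the sets `D_N + α` on the scale `1 / log N` - if and only if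
  for every `α ∈ E` it holds for `t ∈ D_N + α`, with constants that may depend on `α`.
* (Lindelöf) Let `F_N` have `O(N^(κ + ε))` elements.  Then `L(1/2 + it, π) = O(N^ε)` for all `π ∈ F_N`, `|t| ≤ N^ρ`, if and only if for
  arbitrarily large `k` the unweighted moments are `O(N^(κ + ε))` at the points of `D_N + α`, for all `α ∈ E`.

The natural sampling distance for L-functions of conductor `N` is `1 / log N`; the sets `D_N` may be much sparser, and the set
`E` of translates which compensates for this may be a null set.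

The theorem uses only classical facts on the L-functions: the functional equation, `Re μ_j < 1/2`, finite order, and
Molteni's bound in `σ ≥ 1 + ε`.  For primitive Dirichlet characters of modulus `q > 1` (`m = 1`) all of them are proved, and
the result holds with `q` in place of `C_π`.

Proof.  Cauchy's formula in the disc of radius `4r` about a point `1/2 + iT` for `L(s, π)` divided by the product of the
`s - s_j` over about `4 r p log N` sampling points: `|L(1/2 + iT, π)|` is at most `N^(-0.18 r p)` times the maximum of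
`|L|` on `|u - T| ≤ N^ω`, plus `N^(2 η p)` times the maximum over the sampling points, whose energy is controlled by `η`.  Taking
`k`-th powers of local maxima and summing over `π` lowers every exponent `σ` of the moments of local maxima by `r p k / 10`
unless it is `≤ κ + 2 η p k`, and one iterates.
-/

set_option autoImplicit false

open Filter Topology MeasureTheory Real Set

namespace Pool.Agent.Results.MP_52e316_nt.FamilyMomentsBySampling

/-- The data of a standard L-function of `GL(m)`: the conductor `N`, the archimedean parameters `mu j` (the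
factor at infinity is `∏ j, Γ_ℝ (s - mu j)`) and the L-function `f` (continued to the complex plane). -/
structure Datum (m : ℕ) where
  N : ℕ
  mu : Fin m → ℂ
  f : ℂ → ℂ

/-- The analytic conductor `C = N ∏ j, (1 + |mu j|)`. -/
noncomputable def Datum.C {m : ℕ} (D : Datum m) : ℝ := D.N * ∏ j, (1 + ‖D.mu j‖)

/-- The classical properties: `N ≥ 1`, `Re (mu j) < 1/2`, `f` is entire, of finite order in the strip
`-1/4 ≤ Re s ≤ 5/4`, and satisfies the functional equation `Λ(s) = root N^(1/2-s) conj (Λ(1 - conj s))`,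
`Λ(s) = f(s) ∏ j, Γ_ℝ (s - mu j)`, with `|root| = 1` (divided by the gamma factors of both sides). -/
structure Datum.Ok {m : ℕ} (D : Datum m) : Prop where
  N_pos : 0 < D.N
  mu_re : ∀ j, (D.mu j).re < 1 / 2
  entire : Differentiable ℂ D.f
  order : ∃ A : ℝ, ∀ s : ℂ, -1 / 4 ≤ s.re → s.re ≤ 5 / 4 →
    ‖D.f s‖ ≤ Real.exp (A * (1 + |s.im|) ^ A)
  fe : ∃ root : ℂ, ‖root‖ = 1 ∧ ∀ s : ℂ,
    D.f s * ∏ j, (Complex.Gammaℝ (1 - s - (starRingEnd ℂ) (D.mu j)))⁻¹ =
      root * (D.N : ℂ) ^ (1 / 2 - s) * (starRingEnd ℂ) (D.f (1 - (starRingEnd ℂ) s)) *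
        ∏ j, (Complex.Gammaℝ (s - D.mu j))⁻¹

/-- Molteni's bound to the right of the critical strip, uniform in the family. -/
def Molteni {ι : Type} {m : ℕ} (D : ι → Datum m) : Prop := ∀ ε : ℝ, 0 < ε → ∃ B : ℝ, ∀ (i : ι) (s : ℂ),
  1 + ε ≤ s.re → ‖(D i).f s‖ ≤ B * (D i).C ^ ε

variable {ι : Type}

/-- The moment `∑_{i ∈ F N} v N i |L i (1/2 + it)|^k`. -/
noncomputable def Moment (L : ι → ℂ → ℂ) (F : ℕ → Finset ι) (v : ℕ → ι → ℝ) (k : ℝ) (N : ℕ)
    (t : ℝ) : ℝ := ∑ i ∈ F N, v N i * ‖L i (1 / 2 + t * Complex.I)‖ ^ k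

/-- `M_k(N, t) = O(N^(κ + ε))` for `|t| ≤ N^ρ`, for all `ε > 0` and `ρ < δ`. -/
def MomentBound (L : ι → ℂ → ℂ) (F : ℕ → Finset ι) (v : ℕ → ι → ℝ) (k κ δ : ℝ) : Prop :=
  ∀ ρ : ℝ, ρ < δ → ∀ ε : ℝ, 0 < ε → ∃ B : ℝ, ∀ N : ℕ, 2 ≤ N → ∀ t : ℝ, |t| ≤ (N:ℝ) ^ ρ →
    Moment L F v k N t ≤ B * (N:ℝ) ^ (κ + ε)

/-- The same bound for the heights `t + α` with `t ∈ D N`, `|t| ≤ N^ρ`. -/
def SampledBound (L : ι → ℂ → ℂ) (F : ℕ → Finset ι) (v : ℕ → ι → ℝ) (k κ δ : ℝ) (D : ℕ → Set ℝ)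
    (α : ℝ) : Prop :=
  ∀ ρ : ℝ, ρ < δ → ∀ ε : ℝ, 0 < ε → ∃ B : ℝ, ∀ N : ℕ, 2 ≤ N → ∀ t ∈ D N, |t| ≤ (N:ℝ) ^ ρ →
    Moment L F v k N (t + α) ≤ B * (N:ℝ) ^ (κ + ε)

/-- `|L i (1/2 + it)| = O(N^ε)` for `i ∈ F N`, `|t| ≤ N^ρ`, for all `ε > 0` and `ρ < δ`. -/
def Lindelof (L : ι → ℂ → ℂ) (F : ℕ → Finset ι) (δ : ℝ) : Prop :=
  ∀ ρ : ℝ, ρ < δ → ∀ ε : ℝ, 0 < ε → ∃ B : ℝ, ∀ N : ℕ, 2 ≤ N → ∀ i ∈ F N, ∀ t : ℝ, |t| ≤ (N:ℝ) ^ ρ →
    ‖L i (1 / 2 + t * Complex.I)‖ ≤ B * (N:ℝ) ^ ε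

/-- Positive (inner) logarithmic capacity: `E` carries a nonzero finite measure without point masses whose
logarithmic energy `∬ log⁺ (1 / |x - y|) dν(x) dν(y)` is finite. -/
def PosCap (E : Set ℝ) : Prop := ∃ ν : Measure ℝ, ν univ ≠ ⊤ ∧ ν ≠ 0 ∧ ν Eᶜ = 0 ∧
  (∀ x : ℝ, ν {x} = 0) ∧
  ∫⁻ x, ∫⁻ y, ENNReal.ofReal (Real.log (1 / |x - y|)) ∂ν ∂ν ≠ ⊤

/-- Nets: the distance of `D N` to the points of `[-N^δ, N^δ]` tends to `0` as `N → ∞`. -/
def Net (δ : ℝ) (D : ℕ → Set ℝ) : Prop := ∀ ρ : ℝ, 0 < ρ → ∃ N₀ : ℕ, ∀ N : ℕ, N₀ ≤ N → ∀ T : ℝ,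
  |T| ≤ (N:ℝ) ^ δ → ∃ t ∈ D N, |t - T| ≤ ρ

/-- The conclusion for a family `L i` with conductors `C i`. -/
def Conclusion (L : ι → ℂ → ℂ) (C : ι → ℝ) : Prop :=
  ∀ (F : ℕ → Finset ι) (κ δ : ℝ) (E : Set ℝ) (D : ℕ → Set ℝ), 0 ≤ κ → 0 < δ →
    (∀ N, ∀ i ∈ F N, C i ≤ N) → PosCap E → Net δ D →
    -- moments
    (∀ (v : ℕ → ι → ℝ) (k : ℝ), 0 < k → (∀ N i, 0 ≤ v N i) →
      (∀ ε : ℝ, 0 < ε → ∃ B : ℝ, ∀ N : ℕ, 2 ≤ N → ∑ i ∈ F N, v N i ≤ B * (N:ℝ) ^ (κ + ε)) →
      (MomentBound L F v k κ δ ↔ ∀ α ∈ E, SampledBound L F v k κ δ D α)) ∧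
    -- the Lindelöf hypothesis for the family
    ((∀ ε : ℝ, 0 < ε → ∃ B : ℝ, ∀ N : ℕ, 2 ≤ N → ((F N).card : ℝ) ≤ B * (N:ℝ) ^ (κ + ε)) →
      (Lindelof L F δ ↔ ∀ k₀ : ℝ, ∃ k : ℝ, k₀ ≤ k ∧ ∀ α ∈ E,
        SampledBound L F (fun _ _ => 1) k κ δ D α))

section proofs

open Pool.Agent.H983R4.GL H855R2.SF Pool.Agent.X114.FM

lemma mom_of_lind {L : ι → ℂ → ℂ} {F : ℕ → Finset ι} {κ δ k : ℝ} (hk : 0 < k) (h : Lindelof L F δ)
    (hc : ∀ ε : ℝ, 0 < ε → ∃ B : ℝ, ∀ N : ℕ, 2 ≤ N → ((F N).card : ℝ) ≤ B * (N:ℝ) ^ (κ + ε)) :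
    MomentBound L F (fun _ _ => 1) k κ δ := by
  intro ρ hρ ε hε
  obtain ⟨B₁, hB₁⟩ := h ρ hρ (ε / (2 * k)) (by positivity)
  obtain ⟨B₂, hB₂⟩ := hc (ε / 2) (by positivity)
  refine ⟨|B₂| * |B₁| ^ k, fun N hN t ht => ?_⟩
  have hNr : (2:ℝ) ≤ N := by exact_mod_cast hN
  have hN0 : (0:ℝ) < N := by linarith
  have h1 : ∀ i ∈ F N, (1:ℝ) * ‖L i (1 / 2 + t * Complex.I)‖ ^ k ≤ |B₁| ^ k * (N:ℝ) ^ (ε / 2) := by
    intro i hi
    rw [one_mul]
    have h2 : ‖L i (1 / 2 + t * Complex.I)‖ ≤ |B₁| * (N:ℝ) ^ (ε / (2 * k)) :=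
      (hB₁ N hN i hi t ht).trans (by gcongr; exact le_abs_self B₁)
    refine (Real.rpow_le_rpow (norm_nonneg _) h2 hk.le).trans (le_of_eq ?_)
    rw [Real.mul_rpow (abs_nonneg _) (by positivity), ← Real.rpow_mul hN0.le]
    congr 2
    field_simp
  unfold Moment
  refine (Finset.sum_le_sum h1).trans ?_
  rw [Finset.sum_const, nsmul_eq_mul]
  calc ((F N).card : ℝ) * (|B₁| ^ k * (N:ℝ) ^ (ε / 2)) ≤
        (|B₂| * (N:ℝ) ^ (κ + ε / 2)) * (|B₁| ^ k * (N:ℝ) ^ (ε / 2)) := by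
          gcongr
          exact (hB₂ N hN).trans (by gcongr; exact le_abs_self B₂)
    _ = |B₂| * |B₁| ^ k * ((N:ℝ) ^ (κ + ε / 2) * (N:ℝ) ^ (ε / 2)) := by ring
    _ = _ := by rw [← Real.rpow_add hN0]; congr 2; ring

theorem conclusion_of {L : ι → ℂ → ℂ} {C : ι → ℝ} (H : Fam L (fun i T => (1 + |T|) * C i)) :
    Conclusion L C := by
  intro F κ δ E D hκ hδ hF hE hD
  have hX : ∀ N : ℕ, 2 ≤ N → ∀ i ∈ F N, ∀ T : ℝ, |T| ≤ 2 * (N:ℝ) ^ δ →
      (1 + |T|) * C i ≤ (N:ℝ) ^ (δ + 3) := by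
    intro N hN i hi T hT
    have hNr : (2:ℝ) ≤ N := by exact_mod_cast hN
    have hN0 : (0:ℝ) < N := by linarith
    have h1 : 1 ≤ (N:ℝ) ^ δ := Real.one_le_rpow (by linarith) hδ.le
    have h2 : (N:ℝ) ^ (δ + 3) = (N:ℝ) ^ δ * ((N:ℝ) ^ 2 * N) := by
      rw [Real.rpow_add hN0]
      norm_cast
    have h3 := hF N i hi
    rw [h2]
    calc (1 + |T|) * C i ≤ (1 + |T|) * N := mul_le_mul_of_nonneg_left h3 (by positivity)
      _ ≤ (3 * (N:ℝ) ^ δ) * N := by
          apply mul_le_mul_of_nonneg_right _ hN0.le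
          linarith
      _ ≤ ((N:ℝ) ^ 2 * (N:ℝ) ^ δ) * N := by
          apply mul_le_mul_of_nonneg_right _ hN0.le
          apply mul_le_mul_of_nonneg_right _ (by positivity)
          nlinarith
      _ = _ := by ring
  have main : ∀ (v : ℕ → ι → ℝ) (k : ℝ), 0 < k → (∀ N i, 0 ≤ v N i) →
      (∀ ε : ℝ, 0 < ε → ∃ B : ℝ, ∀ N : ℕ, 2 ≤ N → ∑ i ∈ F N, v N i ≤ B * (N:ℝ) ^ (κ + ε)) →
      (MomentBound L F v k κ δ ↔ ∀ α ∈ E, SampledBound L F v k κ δ D α) :=
    fun v k hk hv hm => momB_iff H (e := δ + 3) (by linarith) hκ hk hv hX hm hδ hE hD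
  refine ⟨main, fun hc => ?_⟩
  have hm : ∀ ε : ℝ, 0 < ε → ∃ B : ℝ, ∀ N : ℕ, 2 ≤ N →
      ∑ _i ∈ F N, (fun (_ : ℕ) (_ : ι) => (1:ℝ)) N _i ≤ B * (N:ℝ) ^ (κ + ε) := by
    intro ε hε
    obtain ⟨B, hB⟩ := hc ε hε
    refine ⟨B, fun N hN => ?_⟩
    have := hB N hN
    simpa using this
  constructor
  · intro h k₀
    refine ⟨max k₀ 1, le_max_left _ _, ?_⟩
    have hk : 0 < max k₀ 1 := lt_of_lt_of_le one_pos (le_max_right _ _)
    exact (main _ _ hk (fun _ _ => zero_le_one) hm).1 (mom_of_lind hk h hc)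
  · intro h
    refine lind_of_momB hκ fun k₀ => ?_
    obtain ⟨k, hk, hS⟩ := h (max k₀ 1)
    have hk0 : 0 < k := lt_of_lt_of_le one_pos ((le_max_right _ _).trans hk)
    exact ⟨k, (le_max_left _ _).trans hk, hk0,
      (main _ _ hk0 (fun _ _ => zero_le_one) hm).2 hS⟩

theorem Datum.C_one {m : ℕ} {D : Datum m} (h : 0 < D.N) : 1 ≤ D.C := by
  have := cond_one_le h D.mu 0
  unfold Datum.C
  simpa using this

theorem afam_gl {m : ℕ} (hm : 1 ≤ m) {D : ι → Datum m} (hD : ∀ i, (D i).Ok) (hM : Molteni D) :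
    AFam (m : ℝ) (fun i => (D i).f) (fun i t => ((1 + |t|) * (D i).C) ^ (m : ℝ)) where
  m0 := by positivity
  Q1 := by
    intro i t
    refine Real.one_le_rpow ?_ (by positivity)
    have h1 := (D i).C_one (hD i).N_pos
    nlinarith [abs_nonneg t]
  Qs := by
    intro i t u
    have h1 := (D i).C_one (hD i).N_pos
    have h2 : 1 + |t + u| ≤ (1 + |u|) * (1 + |t|) := by
      have := abs_add_le t u
      nlinarith [abs_nonneg t, abs_nonneg u, mul_nonneg (abs_nonneg t) (abs_nonneg u)]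
    rw [← Real.mul_rpow (by positivity) (by positivity)]
    refine Real.rpow_le_rpow (by positivity) ?_ (by positivity)
    calc (1 + |t + u|) * (D i).C ≤ ((1 + |u|) * (1 + |t|)) * (D i).C :=
          mul_le_mul_of_nonneg_right h2 (by linarith)
      _ = _ := by ring
  diff := fun i => (hD i).entire
  order := fun i => (hD i).order
  right := by
    intro δ hδ
    obtain ⟨B, hB⟩ := hM δ hδ
    refine ⟨|B|, fun i s hs => ?_⟩
    have h1 := (D i).C_one (hD i).N_pos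
    refine (hB i s hs).trans ?_
    have h2 : (D i).C ≤ (1 + |s.im|) * (D i).C := by
      nlinarith [abs_nonneg s.im]
    have h3 : (D i).C ≤ ((1 + |s.im|) * (D i).C) ^ (m : ℝ) := by
      refine h2.trans ?_
      conv_lhs => rw [← Real.rpow_one ((1 + |s.im|) * (D i).C)]
      exact Real.rpow_le_rpow_of_exponent_le (by linarith) (by exact_mod_cast hm)
    calc B * (D i).C ^ δ ≤ |B| * (D i).C ^ δ :=
          mul_le_mul_of_nonneg_right (le_abs_self B) (Real.rpow_nonneg (by linarith) _)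
      _ ≤ _ := mul_le_mul_of_nonneg_left (Real.rpow_le_rpow (by linarith) h3 hδ.le) (abs_nonneg B)
  refl := by
    refine ⟨16 ^ m, by positivity, fun i x t hx0 hx1 => ?_⟩
    obtain ⟨root, hroot, hfe⟩ := (hD i).fe
    have h1 := (D i).C_one (hD i).N_pos
    refine (refl_of_fe (hD i).N_pos (D i).mu (hD i).mu_re hroot hfe (t := t) hx0 hx1).trans ?_
    refine mul_le_mul_of_nonneg_right ?_ (norm_nonneg _)
    refine mul_le_mul_of_nonneg_left ?_ (by positivity)
    refine Real.rpow_le_rpow (by positivity) ?_ hx0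
    have h2 := cond_shift (D i).N (D i).mu 0 t
    have e1 : (D i).N * ∏ j, (1 + ‖(D i).mu j - ((0 : ℝ) : ℂ) * Complex.I‖) = (D i).C := by
      unfold Datum.C; simp
    rw [e1, zero_add] at h2
    refine h2.trans ?_
    rw [Real.mul_rpow (by positivity) (by linarith)]
    refine mul_le_mul_of_nonneg_left ?_ (by positivity)
    conv_lhs => rw [← Real.rpow_one (D i).C]
    exact Real.rpow_le_rpow_of_exponent_le h1 (by exact_mod_cast hm)

theorem fam_dir : Fam (dirL (S := fun _ _ => True)) (dirQ (S := fun _ _ => True)) :=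
  Fam.of_afam (p := 1) (dir_afam _) one_pos (dir_afam _).Q1 fun i t => by rw [Real.rpow_one]

end proofs

/-- **Moments over families and the Lindelöf hypothesis, by undersampling.** -/
theorem result :
    -- families of standard L-functions of `GL(m)`
    (∀ (ι : Type) (m : ℕ) (D : ι → Datum m), 1 ≤ m → (∀ i, (D i).Ok) → Molteni D →
      Conclusion (fun i => (D i).f) (fun i => (D i).C)) ∧
    -- families of primitive Dirichlet characters of modulus `q > 1`, unconditionally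
    (∀ (ι : Type) (q : ι → ℕ) [∀ i, NeZero (q i)] (χ : (i : ι) → DirichletCharacter ℂ (q i)),
      (∀ i, 1 < q i ∧ (χ i).IsPrimitive) →
      Conclusion (fun i => DirichletCharacter.LFunction (χ i)) (fun i => (q i : ℝ))) := by
  refine ⟨fun ι m D hm hD hM => conclusion_of ?_, fun ι q _ χ h => conclusion_of ?_⟩
  · refine Pool.Agent.H983R4.GL.Fam.of_afam (p := m) (afam_gl hm hD hM) (by exact_mod_cast hm) ?_
      fun _ _ => rfl
    intro i t
    have h1 := (D i).C_one (hD i).N_pos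
    nlinarith [abs_nonneg t]
  · have H := fam_dir
    set g : ι → H855R2.SF.DC (fun _ _ => True) := fun i => ⟨q i, (h i).1, χ i, (h i).2, trivial⟩ with hg
    have e : ∀ i t, H855R2.SF.dirQ (S := fun _ _ => True) (g i) t = (1 + |t|) * (q i : ℝ) := by
      intro i t
      rw [mul_comm]
      rfl
    refine ⟨fun i t => ?_, ?_, ?_⟩
    · rw [← e]; exact H.one (g i) t
    · obtain ⟨p, C, m, K, hp, hC, hm, hK, h⟩ := H.ld
      exact ⟨p, C, m, K, hp, hC, hm, hK, fun i T => by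
        have := h (g i) T
        rwa [e] at this⟩
    · obtain ⟨m, hm, h⟩ := H.shift
      exact ⟨m, hm, fun i t u => by
        have := h (g i) t u
        rwa [e, e] at this⟩

end Pool.Agent.Results.MP_52e316_nt.FamilyMomentsBySampling
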