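import Mathlib
import Pool.Agent.X102.GLP
import Pool.Agent.H983R4.GL.F3
import Pool.Agent.H855R2.SF.Dir

/-!
# Near-maximal values of L-functions of `GL(m)` fill short windows

Let `π` run through a family of cuspidal representations of `GL(m)`, normalised as in the problem, and put
`X = (1 + |T|) C_π`.  Let `θ` be any exponent with `|L(1/2 + iT, π)| = O(X^(θ + ε))` for all `ε > 0`, uniformly
in the family.

* If `|L(1/2 + ix, π)| ≤ X^(θ - δ)` on a proportion `η` of ONE window `[T - h, T + h]` with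
  `h ≤ η δ / (10 π m)`, then `|L(1/2 + iT, π)| ≤ X^(θ - δ')` with `δ' = η δ / (20 π)`, as soon as `X` is large
  in terms of `θ`, `δ`, `η` and the family; the saving `δ'` does not depend on `h`.
* Hence, if `θ` is the least such exponent (it exists), then for all `δ` in `(0, θ]` and `η` in `(0, 1]` there
  are `π` and `T` with `X` arbitrarily large such that `|L(1/2 + ix, π)| > X^(θ - δ)` for all but a proportion
  `η` of the points of EVERY window `[T - h, T + h]` with `h ≤ η δ / (10 π m)`, `h ≤ 1/2`: were the Grand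
  Lindelöf Hypothesis false, near-maximal values would fill almost all of every short interval around some `T`.
* The Grand Lindelöf Hypothesis for the family holds if and only if, for every `ε > 0`, there is `η > 0` such
  that around every `(π, T)` with `X` large there is one window, of radius at most `η ε / (10 π m)` but as small
  as we please, on a proportion `η` of which `|L(1/2 + ix, π)| ≤ X^ε`.

The theorem uses only classical facts: the functional equation, `Re μ_j < 1/2`, finite order, and Molteni's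
bound `L(σ + it, π) = O(C_π^ε)` in `σ ≥ 1 + ε`.  For primitive Dirichlet characters of modulus `q > 1`
(`m = 1`) all of them are proved and the result holds with `X = q (1 + |T|)`.

Proof.  The Poisson-Jensen inequality in the half plane `Re s > 1/2` gives a bound `(θ - c η δ a / h) log X` for
`log |L|` at distance `a ≤ h` from the critical line, near `1/2 + iT`.  Jensen's inequality on the circle with
centre `1/2 + iT` and radius `h` and the functional equation carry this over to the point `1/2 + iT`; the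
reflection costs at most `m a log X`, which is less than the gain as `h ≤ η δ / (10 π m)`.
-/

set_option autoImplicit false

open Filter Topology MeasureTheory Real Set

namespace Pool.Agent.Results.MP_52e316_nt.FilledWindows

/-- The data of a standard L-function of `GL(m)`: the conductor `N`, the archimedean parameters `mu j` (the
factor at infinity is `∏ j, Γ_ℝ (s - mu j)`) and the L-function `f` (continued to the complex plane). -/
structure Datum (m : ℕ) where
  N : ℕ
  mu : Fin m → ℂ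
  f : ℂ → ℂ

/-- The analytic conductor `C = N ∏ j, (1 + |mu j|)`. -/
noncomputable def Datum.C {m : ℕ} (D : Datum m) : ℝ := D.N * ∏ j, (1 + ‖D.mu j‖)

/-- The classical properties: `N ≥ 1`, `Re (mu j) < 1/2`, `f` is entire, of finite order in the strip
`-1/4 ≤ Re s ≤ 5/4`, and satisfies the functional equation `Λ(s) = root N^(1/2-s) conj (Λ(1 - conj s))`,
`Λ(s) = f(s) ∏ j, Γ_ℝ (s - mu j)`, with `|root| = 1` (divided by the gamma factors of both sides). -/
structure Datum.Ok {m : ℕ} (D : Datum m) : Prop where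
  N_pos : 0 < D.N
  mu_re : ∀ j, (D.mu j).re < 1 / 2
  entire : Differentiable ℂ D.f
  order : ∃ A : ℝ, ∀ s : ℂ, -1 / 4 ≤ s.re → s.re ≤ 5 / 4 →
    ‖D.f s‖ ≤ Real.exp (A * (1 + |s.im|) ^ A)
  fe : ∃ root : ℂ, ‖root‖ = 1 ∧ ∀ s : ℂ,
    D.f s * ∏ j, (Complex.Gammaℝ (1 - s - (starRingEnd ℂ) (D.mu j)))⁻¹ =
      root * (D.N : ℂ) ^ (1 / 2 - s) * (starRingEnd ℂ) (D.f (1 - (starRingEnd ℂ) s)) *
        ∏ j, (Complex.Gammaℝ (s - D.mu j))⁻¹

/-- Molteni's bound to the right of the critical strip, uniform in the family. -/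
def Molteni {ι : Type} {m : ℕ} (D : ι → Datum m) : Prop := ∀ ε : ℝ, 0 < ε → ∃ B : ℝ, ∀ (i : ι) (s : ℂ),
  1 + ε ≤ s.re → ‖(D i).f s‖ ≤ B * (D i).C ^ ε

variable {ι : Type}

/-- `|L i (1/2 + iT)| = O(X^(κ + ε))` for every `ε > 0`, uniformly in the family; for `κ = 0` this is the
Lindelöf hypothesis for the family. -/
def Exponent (L : ι → ℂ → ℂ) (X : ι → ℝ → ℝ) (κ : ℝ) : Prop :=
  ∀ ε : ℝ, 0 < ε → ∃ B : ℝ, ∀ (i : ι) (T : ℝ),
    ‖L i (1 / 2 + T * Complex.I)‖ ≤ B * X i T ^ (κ + ε)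

/-- The points `x` of the window `[T - h, T + h]` at which `|L i (1/2 + ix)| ≤ (X i T)^κ`. -/
def Small (L : ι → ℂ → ℂ) (X : ι → ℝ → ℝ) (κ : ℝ) (i : ι) (T h : ℝ) : Set ℝ :=
  {x : ℝ | |x - T| ≤ h ∧ ‖L i (1 / 2 + x * Complex.I)‖ ≤ X i T ^ κ}

/-- If `θ` is an admissible exponent and `|L| ≤ X^(θ - δ)` on a proportion `η` of one window of radius
`h ≤ η δ / (10 π p)` around `T`, then `|L(1/2 + iT)| ≤ X^(θ - η δ / (20 π))`, for `X` large. -/
def Improvement (p : ℝ) (L : ι → ℂ → ℂ) (X : ι → ℝ → ℝ) : Prop :=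
  ∀ θ δ η : ℝ, Exponent L X θ → 0 < δ → δ ≤ θ → 0 < η → ∃ X₀ : ℝ, ∀ (i : ι) (T : ℝ), X₀ ≤ X i T →
    ∀ h : ℝ, 0 < h → h ≤ 1 / 2 → h ≤ η * δ / (10 * π * p) →
      ENNReal.ofReal (η * (2 * h)) ≤ volume (Small L X (θ - δ) i T h) →
        ‖L i (1 / 2 + T * Complex.I)‖ ≤ X i T ^ (θ - η * δ / (20 * π))

/-- Near-maximal values fill all short windows around some points: `θ` is the least exponent. -/
def Filled (p : ℝ) (L : ι → ℂ → ℂ) (X : ι → ℝ → ℝ) : Prop :=
  ∃ θ : ℝ, 0 ≤ θ ∧ Exponent L X θ ∧ (∀ θ' : ℝ, 0 ≤ θ' → Exponent L X θ' → θ ≤ θ') ∧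
    ∀ δ η X₀ : ℝ, 0 < δ → δ ≤ θ → 0 < η → η ≤ 1 → ∃ (i : ι) (T : ℝ), X₀ ≤ X i T ∧
      ∀ h : ℝ, 0 < h → h ≤ 1 / 2 → h ≤ η * δ / (10 * π * p) →
        volume (Small L X (θ - δ) i T h) < ENNReal.ofReal (η * (2 * h))

/-- The Lindelöf hypothesis for the family is equivalent to small values on positive proportions of windows. -/
def Criterion (p : ℝ) (L : ι → ℂ → ℂ) (X : ι → ℝ → ℝ) : Prop :=
  Exponent L X 0 ↔ ∀ ε : ℝ, 0 < ε → ∃ η : ℝ, 0 < η ∧ η ≤ 1 ∧ ∃ X₀ : ℝ, ∀ (i : ι) (T : ℝ),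
    X₀ ≤ X i T → ∃ h : ℝ, 0 < h ∧ h ≤ 1 / 2 ∧ h ≤ η * ε / (10 * π * p) ∧
      ENNReal.ofReal (η * (2 * h)) ≤ volume (Small L X ε i T h)

/-- The conclusion for a family. -/
def Conclusion (p : ℝ) (L : ι → ℂ → ℂ) (X : ι → ℝ → ℝ) : Prop :=
  Improvement p L X ∧ Filled p L X ∧ Criterion p L X

section proofs

open Pool.Agent.H983R4.GL H855R2.SF Pool.Agent.X102.GLP

theorem adm_iff {L : ι → ℂ → ℂ} {X : ι → ℝ → ℝ} {κ : ℝ} : Exponent L X κ ↔ AdmOn L X univ κ :=
  ⟨fun h ε hε => (h ε hε).imp fun _ hB i T _ => hB i T,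
    fun h ε hε => (h ε hε).imp fun _ hB i T => hB i T (mem_univ _)⟩

theorem conclusion_of {L : ι → ℂ → ℂ} {X : ι → ℝ → ℝ} {p : ℝ} (H : FamP L X p) :
    Conclusion p L X := by
  refine ⟨?_, ?_, ?_⟩
  · intro θ δ η h1 h2 h3 h4
    obtain ⟨X₀, _, h⟩ := H.improve (adm_iff.1 h1) h2 h3 h4
    exact ⟨X₀, fun i T hT w a b c d => h i T hT w a b c d⟩
  · obtain ⟨θ, hθ0, hθ, hmin⟩ := H.least
    refine ⟨θ, hθ0, adm_iff.2 hθ, fun θ' h0 h => hmin θ' h0 (adm_iff.1 h),
      fun δ η X₀ hδ hδθ hη hη1 => ?_⟩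
    have h2 := H.spread hθ hmin hδ hδθ hη hη1
    unfold Pool.Agent.X102.GLP.Some at h2
    push Not at h2
    obtain ⟨i, T, hT, h3⟩ := h2 X₀
    exact ⟨i, T, hT, fun h a b c => h3 h a b c⟩
  · exact adm_iff.trans H.lind_iff

theorem Datum.C_one {m : ℕ} {D : Datum m} (h : 0 < D.N) : 1 ≤ D.C := by
  have := cond_one_le h D.mu 0
  unfold Datum.C
  simpa using this

theorem afam_gl {m : ℕ} (hm : 1 ≤ m) {D : ι → Datum m} (hD : ∀ i, (D i).Ok) (hM : Molteni D) :
    AFam (m : ℝ) (fun i => (D i).f) (fun i t => ((1 + |t|) * (D i).C) ^ (m : ℝ)) where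
  m0 := by positivity
  Q1 := by
    intro i t
    refine Real.one_le_rpow ?_ (by positivity)
    have h1 := (D i).C_one (hD i).N_pos
    nlinarith [abs_nonneg t]
  Qs := by
    intro i t u
    have h1 := (D i).C_one (hD i).N_pos
    have h2 : 1 + |t + u| ≤ (1 + |u|) * (1 + |t|) := by
      have := abs_add_le t u
      nlinarith [abs_nonneg t, abs_nonneg u, mul_nonneg (abs_nonneg t) (abs_nonneg u)]
    rw [← Real.mul_rpow (by positivity) (by positivity)]
    refine Real.rpow_le_rpow (by positivity) ?_ (by positivity)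
    calc (1 + |t + u|) * (D i).C ≤ ((1 + |u|) * (1 + |t|)) * (D i).C :=
          mul_le_mul_of_nonneg_right h2 (by linarith)
      _ = _ := by ring
  diff := fun i => (hD i).entire
  order := fun i => (hD i).order
  right := by
    intro δ hδ
    obtain ⟨B, hB⟩ := hM δ hδ
    refine ⟨|B|, fun i s hs => ?_⟩
    have h1 := (D i).C_one (hD i).N_pos
    refine (hB i s hs).trans ?_
    have h2 : (D i).C ≤ (1 + |s.im|) * (D i).C := by
      nlinarith [abs_nonneg s.im]
    have h3 : (D i).C ≤ ((1 + |s.im|) * (D i).C) ^ (m : ℝ) := by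
      refine h2.trans ?_
      conv_lhs => rw [← Real.rpow_one ((1 + |s.im|) * (D i).C)]
      exact Real.rpow_le_rpow_of_exponent_le (by linarith) (by exact_mod_cast hm)
    calc B * (D i).C ^ δ ≤ |B| * (D i).C ^ δ :=
          mul_le_mul_of_nonneg_right (le_abs_self B) (Real.rpow_nonneg (by linarith) _)
      _ ≤ _ := mul_le_mul_of_nonneg_left (Real.rpow_le_rpow (by linarith) h3 hδ.le) (abs_nonneg B)
  refl := by
    refine ⟨16 ^ m, by positivity, fun i x t hx0 hx1 => ?_⟩
    obtain ⟨root, hroot, hfe⟩ := (hD i).fe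
    have h1 := (D i).C_one (hD i).N_pos
    refine (refl_of_fe (hD i).N_pos (D i).mu (hD i).mu_re hroot hfe (t := t) hx0 hx1).trans ?_
    refine mul_le_mul_of_nonneg_right ?_ (norm_nonneg _)
    refine mul_le_mul_of_nonneg_left ?_ (by positivity)
    refine Real.rpow_le_rpow (by positivity) ?_ hx0
    have h2 := cond_shift (D i).N (D i).mu 0 t
    have e1 : (D i).N * ∏ j, (1 + ‖(D i).mu j - ((0 : ℝ) : ℂ) * Complex.I‖) = (D i).C := by
      unfold Datum.C; simp
    rw [e1, zero_add] at h2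
    refine h2.trans ?_
    rw [Real.mul_rpow (by positivity) (by linarith)]
    refine mul_le_mul_of_nonneg_left ?_ (by positivity)
    conv_lhs => rw [← Real.rpow_one (D i).C]
    exact Real.rpow_le_rpow_of_exponent_le h1 (by exact_mod_cast hm)

theorem FamP.comp {ι' : Type} {L : ι → ℂ → ℂ} {X : ι → ℝ → ℝ} {p : ℝ} (H : FamP L X p)
    (g : ι' → ι) : FamP (fun i => L (g i)) (fun i => X (g i)) p where
  p0 := H.p0
  one := fun i t => H.one (g i) t
  ld := by
    obtain ⟨C, m, K, hC, hm, hK, h⟩ := H.ld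
    exact ⟨C, m, K, hC, hm, hK, fun i T => h (g i) T⟩
  shift := by
    obtain ⟨m, hm, h⟩ := H.shift
    exact ⟨m, hm, fun i t u => h (g i) t u⟩

theorem fam_dir : FamP (dirL (S := fun _ _ => True)) (dirQ (S := fun _ _ => True)) 1 :=
  FamP.of_afam (p := 1) (dir_afam _) one_pos (dir_afam _).Q1 fun i t => by rw [Real.rpow_one]

end proofs

theorem result :
    (∀ (ι : Type) (m : ℕ) (D : ι → Datum m), 1 ≤ m → (∀ i, (D i).Ok) → Molteni D →
      Conclusion m (fun i => (D i).f) (fun i T => (1 + |T|) * (D i).C)) ∧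
    (∀ (ι : Type) (q : ι → ℕ) [∀ i, NeZero (q i)] (χ : (i : ι) → DirichletCharacter ℂ (q i)),
      (∀ i, 1 < q i ∧ (χ i).IsPrimitive) →
      Conclusion 1 (fun i => DirichletCharacter.LFunction (χ i)) (fun i T => (q i : ℝ) * (1 + |T|))) := by
  refine ⟨fun ι m D hm hD hM => conclusion_of ?_, fun ι q _ χ h => conclusion_of ?_⟩
  · refine Pool.Agent.X102.GLP.FamP.of_afam (p := m) (afam_gl hm hD hM) (by exact_mod_cast hm) ?_
      fun _ _ => rfl
    intro i t
    have h1 := (D i).C_one (hD i).N_pos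
    nlinarith [abs_nonneg t]
  · exact FamP.comp fam_dir (fun i => (⟨q i, (h i).1, χ i, (h i).2, trivial⟩ :
      H855R2.SF.DC (fun _ _ => True)))

end Pool.Agent.Results.MP_52e316_nt.FilledWindows
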