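import Pool.Agent.X102.SY7

/-!
# Values of `L`-functions of `GL(m)` on the critical line and their zeros: the inequality of
Soundararajan and Thorner with sharp constants

`π` runs through the L-functions of cuspidal automorphic representations of `GL_m(𝔸_ℚ)` with Satake
parameters `|α_j(p)| ≤ p^θ` (`CuspidalL m θ`); for all cuspidal `π` one may take
`θ = 1/2 - 1/(m²+1)` (Luo, Rudnick, Sarnak).  `C = C_π(t) = N ∏ (1 + |i t - μ_j|)` is the analytic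
conductor at the height `t`, `m_ρ` the multiplicity of a zero `ρ` of `Λ(s, π)`.

Theorem.  All constants depend only on `m`, `θ` (and `κ₁`, `ε`, resp. the class), not on `π` and `t`.

(1) Let `0 ≤ κ ≤ κ₁ < min(1/4, (1-θ)/3)` and `T(ρ) = |tan (π (ρ - 1/2 - i t) / (2 - 4 κ))|`.  Then
`|L(1/2+it)| ≤ B C^(1/4 - κ/2) |L(3/2 - 2κ + it)|² ∏_P T(ρ)^(2 m_ρ) ∏_S T(ρ)^(m_ρ)`, where `P` is a finite
set of zeros in `Re ρ > 1 - κ`, `|Im ρ - t| ≤ B + 2h + 2 log (1 + log C)`, and `S` is any finite set of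
points in `|Re ρ - 1/2| < 1/2 - κ`, `|Im ρ - t| ≤ h`.  (`T(ρ) ≥ 1` on `P`, `T(ρ) < 1` on `S`.)
For `κ = 0` (then `P` is empty) this is Heath-Brown's convexity bound without logarithms, with the gain
from the zeros.

(2) For every `ε > 0` there are `κ₂ > 0` and `J` such that for `0 ≤ κ ≤ κ₂`
`|L(1/2+it)| ≤ B C^(1/4 - (1/2 - ε) κ) exp ((2π + ε) κ n)`, `n` the number of zeros with `Re ρ > 1 - κ` and
`|Im ρ - t| ≤ J`.  Soundararajan and Thorner have `10^{-9} κ` and `10^{-7} κ n` here.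

(3) If a class of `π` satisfies the log-free zero density estimate `n ≪ C^(A κ)` for small `κ`, then
`|L(1/2+it)| ≪ C^(1/4) (1 + log C)^(-δ)` for every `δ < 1/(2A)`.

Proof (modules `Pool.Agent.X102.SZ*`, `SY*`): the maximum principle in the strip `|Re z| < a`,
`a = 1/2 - κ`, for `f(z) f(-z) / (f(2a+z) f(2a-z) conj (f(2a+conj z) f(2a-conj z)))`,
`f(z) = N^(s/2) Λ(s)`, `s = 1/2 + i t + z`, with Blaschke factors of the strip for all zeros and a Gaussian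
factor; the horizontal sides are at good heights (Chebyshev polynomials).
-/

set_option autoImplicit false

open Complex
open scoped ComplexConjugate

namespace Pool.Agent.Results.MP_52e316_nt.SharpWeakSubconvexity

/-- Analytic data of a cuspidal automorphic representation of `GL_m(𝔸_ℚ)` (not the trivial one for
`m = 1`), with Satake parameters bounded by `p^θ`: conductor `N`, archimedean parameters `μ_j` with
`Re μ_j ≤ 1/2`, Satake parameters `α_j(p)`, root number `ε`, and the entire completed L-function `Λ`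
(gamma factors times Euler product for `Re s > 1 + θ`) with the functional equation, finite order in
vertical strips and no zeros in `Re s > 1` (all known: Godement-Jacquet, Jacquet-Shalika). -/
structure CuspidalL (m : ℕ) (θ : ℝ) where
  /-- the conductor -/
  N : ℝ
  /-- the archimedean parameters -/
  μ : Fin m → ℂ
  /-- the Satake parameters -/
  α : Fin m → ℕ → ℂ
  /-- the root number -/
  ε : ℂ
  /-- the completed L-function -/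
  Λ : ℂ → ℂ
  one_le : 1 ≤ N
  re_le : ∀ j, (μ j).re ≤ 1 / 2
  norm_le : ∀ j, ∀ p : ℕ, p.Prime → ‖α j p‖ ≤ (p : ℝ) ^ θ
  norm_eq : ‖ε‖ = 1
  entire : Differentiable ℂ Λ
  euler : ∀ s : ℂ, 1 + θ < s.re → Λ s = (∏ j, Gammaℝ (s - μ j)) *
    ∏' p : Nat.Primes, ∏ j, (1 - α j p * (p : ℂ) ^ (-s))⁻¹
  fe : ∀ s : ℂ, Λ s = ε * (N : ℂ) ^ (1 / 2 - s) * conj (Λ (1 - conj s))
  bdd : ∀ a b : ℝ, ∃ M, ∀ s : ℂ, a ≤ s.re → s.re ≤ b → ‖Λ s‖ ≤ Real.exp (M * (1 + |s.im|))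
  ne_zero : ∀ s : ℂ, 1 < s.re → Λ s ≠ 0

variable {m : ℕ} {θ : ℝ}

/-- The L-function `L(s, π) = Λ(s, π) / ∏ Γ_ℝ(s - μ_j)`. -/
noncomputable def L (π : CuspidalL m θ) (s : ℂ) : ℂ := π.Λ s * ∏ j, (Gammaℝ (s - π.μ j))⁻¹

/-- The analytic conductor at the height `t`: `C_π(t) = N ∏ (1 + |i t - μ_j|)`. -/
noncomputable def Ct (π : CuspidalL m θ) (t : ℝ) : ℝ := π.N * ∏ j, (1 + ‖(t : ℂ) * I - π.μ j‖)

/-- The multiplicity of `ρ` as a zero of `Λ(s, π)`. -/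
noncomputable def mult (π : CuspidalL m θ) (ρ : ℂ) : ℕ := analyticOrderNatAt π.Λ ρ

/-- The weight `|tan (π (ρ - 1/2 - i t) / (2 - 4 κ))|`. -/
noncomputable def T (κ t : ℝ) (ρ : ℂ) : ℝ :=
  ‖Complex.tan ((Real.pi / (2 - 4 * κ) : ℝ) * (ρ - (1 / 2 + (t : ℂ) * I)))‖

/-- A log-free zero density estimate with exponent `A`, near the line `Re s = 1` and in bounded
windows: for every `J` there is `K` with `n ≤ K C_π(t)^(A κ)` for all `0 < κ ≤ κ₀`, where `n` counts zeros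
with `Re ρ > 1 - κ` and `|Im ρ - t| ≤ J` with multiplicity. -/
def LogFree (P : CuspidalL m θ → Prop) (A : ℝ) : Prop :=
  ∃ κ₀ : ℝ, 0 < κ₀ ∧ ∀ J : ℝ, ∃ K : ℝ, ∀ π : CuspidalL m θ, P π → ∀ t κ : ℝ, 0 < κ → κ ≤ κ₀ →
    ∀ S : Finset ℂ, (∀ ρ ∈ S, π.Λ ρ = 0 ∧ 1 - κ < ρ.re ∧ |ρ.im - t| ≤ J) →
      ∑ ρ ∈ S, (mult π ρ : ℝ) ≤ K * Ct π t ^ (A * κ)

open Pool.Agent.W169.HF

lemma datum (π : CuspidalL m θ) : H353.F.DatumT θ π.N π.μ π.α π.ε π.Λ :=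
  { one_le := π.one_le
    re_le := π.re_le
    norm_le := π.norm_le
    norm_eq := π.norm_eq
    entire := π.entire
    euler := π.euler
    fe := π.fe
    bdd := π.bdd }

/-- **Main theorem.** -/
theorem result (hm : 1 ≤ m) (hθ0 : 0 ≤ θ) (hθ1 : θ < 1 / 2) :
    (∀ κ₁ : ℝ, κ₁ < 1 / 4 → κ₁ < (1 - θ) / 3 → ∃ B : ℝ, ∀ (π : CuspidalL m θ) (t h κ : ℝ),
      0 ≤ h → 0 ≤ κ → κ ≤ κ₁ →
      ∃ P : Finset ℂ, (∀ ρ ∈ P, π.Λ ρ = 0 ∧ 1 - κ < ρ.re ∧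
        |ρ.im - t| ≤ B + 2 * h + 2 * Real.log (1 + Real.log (Ct π t))) ∧
      ∀ S : Finset ℂ, (∀ ρ ∈ S, |ρ.re - 1 / 2| < 1 / 2 - κ ∧ |ρ.im - t| ≤ h) →
        ‖L π (1 / 2 + (t : ℂ) * I)‖ ≤ B * Ct π t ^ (1 / 4 - κ / 2) *
          ‖L π (3 / 2 - 2 * κ + (t : ℂ) * I)‖ ^ 2 *
          (∏ ρ ∈ P, T κ t ρ ^ (2 * mult π ρ)) * ∏ ρ ∈ S, T κ t ρ ^ mult π ρ) ∧
    (∀ ε : ℝ, 0 < ε → ∃ κ₂ J B : ℝ, 0 < κ₂ ∧ ∀ (π : CuspidalL m θ) (t κ : ℝ), 0 ≤ κ → κ ≤ κ₂ →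
      ∃ P : Finset ℂ, (∀ ρ ∈ P, π.Λ ρ = 0 ∧ 1 - κ < ρ.re ∧ |ρ.im - t| ≤ J) ∧
        ‖L π (1 / 2 + (t : ℂ) * I)‖ ≤ B * Ct π t ^ (1 / 4 - (1 / 2 - ε) * κ) *
          Real.exp ((2 * Real.pi + ε) * κ * ∑ ρ ∈ P, (mult π ρ : ℝ))) ∧
    (∀ (P : CuspidalL m θ → Prop) (A δ : ℝ), 0 < A → LogFree P A → 0 ≤ δ → δ < 1 / (2 * A) →
      ∃ B : ℝ, ∀ π : CuspidalL m θ, P π → ∀ t : ℝ,
        ‖L π (1 / 2 + (t : ℂ) * I)‖ ≤ B * Ct π t ^ (1 / 4 : ℝ) * (1 + Real.log (Ct π t)) ^ (-δ)) := by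
  refine ⟨fun κ₁ h14 h3 => ?_, fun ε hε => ?_, fun P A δ hA hP hδ0 hδ => ?_⟩
  · obtain ⟨B, hB, H⟩ := Pool.Agent.X102.SZ.datum_ineq m hm (θ := θ) hθ0 hθ1.le h14 h3
    refine ⟨B, fun π t h κ hh hκ0 hκ1 => ?_⟩
    obtain ⟨P, hP, hin⟩ := H π.N π.μ π.α π.ε π.Λ (datum π) π.ne_zero t h (1 / 2 - κ) hh
      (by linarith) (by linarith)
    refine ⟨P, fun ρ hρ => ?_, fun S hS => ?_⟩
    · obtain ⟨k1, k2, k3⟩ := hP ρ hρ
      exact ⟨k1, by linarith, k3⟩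
    · have h1 := hin S hS
      have e1 : (1 / 2 - κ) / 2 = 1 / 4 - κ / 2 := by ring
      have e2 : (1 / 2 + 2 * ((1 / 2 - κ : ℝ) : ℂ) + (t : ℂ) * I : ℂ) = 3 / 2 - 2 * κ + (t : ℂ) * I := by
        push_cast; ring
      have e3 : 4 * (1 / 2 - κ) = 2 - 4 * κ := by ring
      rw [e1, e2, e3] at h1
      have e4 : ∏ ρ ∈ P, T κ t ρ ^ (2 * mult π ρ) = ∏ ρ ∈ P, (‖Complex.tan ((Real.pi / (2 - 4 * κ) : ℝ) *
          (ρ - (1 / 2 + (t : ℂ) * I)))‖ ^ 2) ^ analyticOrderNatAt π.Λ ρ :=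
        Finset.prod_congr rfl fun ρ _ => by rw [T, mult, pow_mul]
      rw [e4]
      exact h1
  · obtain ⟨κ₂, J, B, hκ₂, hJ, hB, H⟩ := Pool.Agent.X102.SZ.datum_ST2 m hm hθ0 hθ1 hε
    exact ⟨κ₂, J, B, hκ₂, fun π t κ h0 h1 => H π.N π.μ π.α π.ε π.Λ (datum π) π.ne_zero t κ h0 h1⟩
  · obtain ⟨κ₀, hκ₀, HP⟩ := hP
    obtain ⟨J, hJ, H⟩ := Pool.Agent.X102.SZ.datum_log m hm hθ0 hθ1 hA hδ0 hδ hκ₀
    obtain ⟨K, HK⟩ := HP J
    obtain ⟨B, HB⟩ := H K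
    exact ⟨B, fun π hπ t => HB π.N π.μ π.α π.ε π.Λ (datum π) π.ne_zero t
      fun κ h0 h1 S hS => HK π hπ t κ h0 h1 S hS⟩

end Pool.Agent.Results.MP_52e316_nt.SharpWeakSubconvexity
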