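import Mathlib
import Pool.Agent.X114.CP4
import Pool.Agent.H855R2.SF.Dir

/-!
# Near a large value of an L-function of `GL(m)` the set of small values has small logarithmic capacity

Let `π` run through (a family of) cuspidal representations of `GL(m)`, normalised as in the problem, and let
`X = (1 + |T|) C_π`.

* (small values) Let `κ < μ` be real numbers.  If `|L(1/2 + iT, π)| ≥ X^μ` and `X` is large then, for every
  `0 < h ≤ 1/8`, the set of the `x` in `[T - h, T + h]` with `|L(1/2 + ix, π)| ≤ X^κ` has logarithmic capacity at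
  most `h (8h/3)^δ` and measure at most `2 e h (8h/3)^δ`, where `δ > 0` depends only on `κ`, `μ` and the family.
  So large values persist on a proportion `1 - O(h^δ)` of `[T - h, T + h]`, and the exceptional set is small even in
  the sense of capacity, at every scale.
* (criterion) Let `κ ≥ 0` and let `S` be any set of pairs `(π, T)`, for example the central points `T = 0`.
  Suppose that for all `ε, η > 0` and each `(π, T)` in `S` with `X` large there is ONE `h` in `(0, 1/8]` such that the set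
  of the `x` in `[T - h, T + h]` with `|L(1/2 + ix, π)| ≤ X^(κ + ε)` has capacity at least `h^(1 + η)`.  Then
  `L(1/2 + iT, π) = O(X^(κ + ε))` for `(π, T)` in `S`; if `S` consists of all pairs this is an equivalence.
* (thin sampling sets) Let `E` be a set of reals which is not too thin at `0`: for every `η > 0` there is `h` in
  `(0, 1/8]` such that `E ∩ [-h, h]` has capacity at least `h^(1 + η)`; `E` may have measure zero (for instance a
  Cantor set).  If `L(1/2 + i(T + x), π) = O(X^(κ + ε))` for `x` in `E` and `(π, T)` in `S`, uniformly, then the bound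
  holds at the points of `S` themselves.  So the Lindelöf hypothesis for central values is
  decided by the values at `1/2 + ix`, `x ∈ E`.

The theorem uses only classical facts: the functional equation, `Re μ_j < 1/2`, finite order, and Molteni's
bound `L(σ + it, π) = O(C_π^ε)` in `σ ≥ 1 + ε`.  For primitive Dirichlet characters of modulus `q > 1`
(`m = 1`) all of them are proved and the result holds with `X = q (1 + |T|)`.

Proof.  Cauchy's formula on the circle of radius `1/2` about `1/2 + iT` for `L` divided by the product of `s - s_j`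
over `N ≈ B log X / log (1/h)` nearly extremal (Fekete) points of the set of small values: the contribution
of the circle is at most `X^(3m/2 + o(1)) (8h/3)^N`, that of the residues at most `2 N X^κ (h / c)^(N-1)`, `c` the capacity.
-/

set_option autoImplicit false

open Filter Topology MeasureTheory Real Set

namespace Pool.Agent.Results.MP_52e316_nt.SmallValuesCapacity

/-- The data of a standard L-function of `GL(m)`: the conductor `N`, the archimedean parameters `mu j` (the
factor at infinity is `∏ j, Γ_ℝ (s - mu j)`) and the L-function `f` (continued to the complex plane). -/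
structure Datum (m : ℕ) where
  N : ℕ
  mu : Fin m → ℂ
  f : ℂ → ℂ

/-- The analytic conductor `C = N ∏ j, (1 + |mu j|)`. -/
noncomputable def Datum.C {m : ℕ} (D : Datum m) : ℝ := D.N * ∏ j, (1 + ‖D.mu j‖)

/-- The classical properties: `N ≥ 1`, `Re (mu j) < 1/2`, `f` is entire, of finite order in the strip
`-1/4 ≤ Re s ≤ 5/4`, and satisfies the functional equation `Λ(s) = root N^(1/2-s) conj (Λ(1 - conj s))`,
`Λ(s) = f(s) ∏ j, Γ_ℝ (s - mu j)`, with `|root| = 1` (divided by the gamma factors of both sides). -/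
structure Datum.Ok {m : ℕ} (D : Datum m) : Prop where
  N_pos : 0 < D.N
  mu_re : ∀ j, (D.mu j).re < 1 / 2
  entire : Differentiable ℂ D.f
  order : ∃ A : ℝ, ∀ s : ℂ, -1 / 4 ≤ s.re → s.re ≤ 5 / 4 →
    ‖D.f s‖ ≤ Real.exp (A * (1 + |s.im|) ^ A)
  fe : ∃ root : ℂ, ‖root‖ = 1 ∧ ∀ s : ℂ,
    D.f s * ∏ j, (Complex.Gammaℝ (1 - s - (starRingEnd ℂ) (D.mu j)))⁻¹ =
      root * (D.N : ℂ) ^ (1 / 2 - s) * (starRingEnd ℂ) (D.f (1 - (starRingEnd ℂ) s)) *
        ∏ j, (Complex.Gammaℝ (s - D.mu j))⁻¹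

/-- Molteni's bound to the right of the critical strip, uniform in the family. -/
def Molteni {ι : Type} {m : ℕ} (D : ι → Datum m) : Prop := ∀ ε : ℝ, 0 < ε → ∃ B : ℝ, ∀ (i : ι) (s : ℂ),
  1 + ε ≤ s.re → ‖(D i).f s‖ ≤ B * (D i).C ^ ε

variable {ι : Type}

/-- The set `E` of real numbers has (inner) logarithmic capacity at least `c`, `0 < c ≤ 1`: it carries a probability
measure without point masses whose logarithmic potential `∫ log⁺ (1 / |x - y|) dν(y)` is at most `log (1 / c)`
everywhere. (For sets of diameter at most `1`, the only ones used here, this is `capacity ≥ c`.) -/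
def CapGe (E : Set ℝ) (c : ℝ) : Prop := ∃ ν : Measure ℝ, ν univ = 1 ∧ ν Eᶜ = 0 ∧ (∀ x, ν {x} = 0) ∧
  ∀ x : ℝ, ∫⁻ y, ENNReal.ofReal (Real.log (1 / |x - y|)) ∂ν ≤ ENNReal.ofReal (Real.log (1 / c))

/-- The points of `[T - h, T + h]` at which `|L i (1/2 + ix)| ≤ X ^ κ`, `X = X i T`. -/
def Small (L : ι → ℂ → ℂ) (X : ι → ℝ → ℝ) (κ : ℝ) (i : ι) (T h : ℝ) : Set ℝ :=
  {x : ℝ | |x - T| ≤ h ∧ ‖L i (1 / 2 + x * Complex.I)‖ ≤ X i T ^ κ}

/-- Near a large value the set of small values has small capacity and measure, at all scales, uniformly in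
the family `L i` with conductors `X i T`. -/
def ThinSmallValues (L : ι → ℂ → ℂ) (X : ι → ℝ → ℝ) : Prop := ∀ κ μ : ℝ, κ < μ →
  ∃ δ X₀ : ℝ, 0 < δ ∧ ∀ (i : ι) (T : ℝ), X₀ ≤ X i T → X i T ^ μ ≤ ‖L i (1 / 2 + T * Complex.I)‖ →
    ∀ h : ℝ, 0 < h → h ≤ 1 / 8 →
      (∀ c : ℝ, 0 < c → c ≤ 1 → CapGe (Small L X κ i T h) c → c ≤ h * (8 * h / 3) ^ δ) ∧
      volume (Small L X κ i T h) ≤ ENNReal.ofReal (2 * Real.exp 1 * (h * (8 * h / 3) ^ δ))

/-- `|L i (1/2 + iT)| = O(X^(κ + ε))` at all points `(i, T)` of `S`. -/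
def Exponent (L : ι → ℂ → ℂ) (X : ι → ℝ → ℝ) (S : Set (ι × ℝ)) (κ : ℝ) : Prop :=
  ∀ ε : ℝ, 0 < ε → ∃ B : ℝ, ∀ (i : ι) (T : ℝ), (i, T) ∈ S →
    ‖L i (1 / 2 + T * Complex.I)‖ ≤ B * X i T ^ (κ + ε)

/-- For all `ε, η > 0` and all `(i, T)` in `S` with `X` large there is a window `[T - h, T + h]`, `h ≤ 1/8`, in
which the points with `|L i (1/2 + ix)| ≤ X^(κ + ε)` form a set of capacity at least `h^(1 + η)`. -/
def CapExponent (L : ι → ℂ → ℂ) (X : ι → ℝ → ℝ) (S : Set (ι × ℝ)) (κ : ℝ) : Prop :=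
  ∀ ε : ℝ, 0 < ε → ∀ η : ℝ, 0 < η → ∃ X₀ : ℝ, ∀ (i : ι) (T : ℝ), (i, T) ∈ S → X₀ ≤ X i T →
    ∃ h c : ℝ, 0 < h ∧ h ≤ 1 / 8 ∧ h ^ (1 + η) ≤ c ∧ c ≤ 1 ∧ CapGe (Small L X (κ + ε) i T h) c

/-- A set of reals that is not too thin at `0`. -/
def NotThin (E : Set ℝ) : Prop := ∀ η : ℝ, 0 < η → ∃ h c : ℝ, 0 < h ∧ h ≤ 1 / 8 ∧ h ^ (1 + η) ≤ c ∧
  c ≤ 1 ∧ CapGe {x | x ∈ E ∧ |x| ≤ h} c

/-- The conclusion for a family. -/
def Conclusion (L : ι → ℂ → ℂ) (X : ι → ℝ → ℝ) : Prop :=
  ThinSmallValues L X ∧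
  (∀ κ : ℝ, 0 ≤ κ → (∀ S : Set (ι × ℝ), CapExponent L X S κ → Exponent L X S κ) ∧
    (Exponent L X univ κ ↔ CapExponent L X univ κ)) ∧
  (∀ (κ : ℝ) (E : Set ℝ) (S : Set (ι × ℝ)), 0 ≤ κ → NotThin E →
    Exponent L X {q | ∃ T : ℝ, (q.1, T) ∈ S ∧ q.2 - T ∈ E} κ → Exponent L X S κ)

section proofs

open Pool.Agent.H983R4.GL H855R2.SF

theorem conclusion_of {L : ι → ℂ → ℂ} {X : ι → ℝ → ℝ} (H : Fam L X) : Conclusion L X := by
  refine ⟨fun κ μ h => ?_, fun κ hκ => ⟨fun S h => ?_, fun h => ?_, fun h => ?_⟩, fun κ E S hκ hE h => ?_⟩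
  · obtain ⟨δ, hδ, X₀, h1⟩ := Pool.Agent.X114.CP.vol_small H h
    exact ⟨δ, X₀, hδ, h1⟩
  · exact Pool.Agent.X114.CP.adm_of_cap H hκ h
  · exact Pool.Agent.X114.CP.cap_of_adm H hκ h
  · exact Pool.Agent.X114.CP.adm_of_cap H hκ h
  · exact Pool.Agent.X114.CP.adm_of_thin H hκ hE h

theorem Datum.C_one {m : ℕ} {D : Datum m} (h : 0 < D.N) : 1 ≤ D.C := by
  have := cond_one_le h D.mu 0
  unfold Datum.C
  simpa using this

theorem afam_gl {m : ℕ} (hm : 1 ≤ m) {D : ι → Datum m} (hD : ∀ i, (D i).Ok) (hM : Molteni D) :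
    AFam (m : ℝ) (fun i => (D i).f) (fun i t => ((1 + |t|) * (D i).C) ^ (m : ℝ)) where
  m0 := by positivity
  Q1 := by
    intro i t
    refine Real.one_le_rpow ?_ (by positivity)
    have h1 := (D i).C_one (hD i).N_pos
    nlinarith [abs_nonneg t]
  Qs := by
    intro i t u
    have h1 := (D i).C_one (hD i).N_pos
    have h2 : 1 + |t + u| ≤ (1 + |u|) * (1 + |t|) := by
      have := abs_add_le t u
      nlinarith [abs_nonneg t, abs_nonneg u, mul_nonneg (abs_nonneg t) (abs_nonneg u)]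
    rw [← Real.mul_rpow (by positivity) (by positivity)]
    refine Real.rpow_le_rpow (by positivity) ?_ (by positivity)
    calc (1 + |t + u|) * (D i).C ≤ ((1 + |u|) * (1 + |t|)) * (D i).C :=
          mul_le_mul_of_nonneg_right h2 (by linarith)
      _ = _ := by ring
  diff := fun i => (hD i).entire
  order := fun i => (hD i).order
  right := by
    intro δ hδ
    obtain ⟨B, hB⟩ := hM δ hδ
    refine ⟨|B|, fun i s hs => ?_⟩
    have h1 := (D i).C_one (hD i).N_pos
    refine (hB i s hs).trans ?_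
    have h2 : (D i).C ≤ (1 + |s.im|) * (D i).C := by
      nlinarith [abs_nonneg s.im]
    have h3 : (D i).C ≤ ((1 + |s.im|) * (D i).C) ^ (m : ℝ) := by
      refine h2.trans ?_
      conv_lhs => rw [← Real.rpow_one ((1 + |s.im|) * (D i).C)]
      exact Real.rpow_le_rpow_of_exponent_le (by linarith) (by exact_mod_cast hm)
    calc B * (D i).C ^ δ ≤ |B| * (D i).C ^ δ :=
          mul_le_mul_of_nonneg_right (le_abs_self B) (Real.rpow_nonneg (by linarith) _)
      _ ≤ _ := mul_le_mul_of_nonneg_left (Real.rpow_le_rpow (by linarith) h3 hδ.le) (abs_nonneg B)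
  refl := by
    refine ⟨16 ^ m, by positivity, fun i x t hx0 hx1 => ?_⟩
    obtain ⟨root, hroot, hfe⟩ := (hD i).fe
    have h1 := (D i).C_one (hD i).N_pos
    refine (refl_of_fe (hD i).N_pos (D i).mu (hD i).mu_re hroot hfe (t := t) hx0 hx1).trans ?_
    refine mul_le_mul_of_nonneg_right ?_ (norm_nonneg _)
    refine mul_le_mul_of_nonneg_left ?_ (by positivity)
    refine Real.rpow_le_rpow (by positivity) ?_ hx0
    have h2 := cond_shift (D i).N (D i).mu 0 t
    have e1 : (D i).N * ∏ j, (1 + ‖(D i).mu j - ((0 : ℝ) : ℂ) * Complex.I‖) = (D i).C := by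
      unfold Datum.C; simp
    rw [e1, zero_add] at h2
    refine h2.trans ?_
    rw [Real.mul_rpow (by positivity) (by linarith)]
    refine mul_le_mul_of_nonneg_left ?_ (by positivity)
    conv_lhs => rw [← Real.rpow_one (D i).C]
    exact Real.rpow_le_rpow_of_exponent_le h1 (by exact_mod_cast hm)

theorem fam_dir : Fam (dirL (S := fun _ _ => True)) (dirQ (S := fun _ _ => True)) :=
  Fam.of_afam (p := 1) (dir_afam _) one_pos (dir_afam _).Q1 fun i t => by rw [Real.rpow_one]

theorem Fam.comp {ι' : Type} {L : ι → ℂ → ℂ} {X : ι → ℝ → ℝ} (H : Fam L X) (g : ι' → ι) :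
    Fam (fun i => L (g i)) (fun i => X (g i)) where
  one := fun i t => H.one (g i) t
  ld := by
    obtain ⟨p, C, m, K, hp, hC, hm, hK, h⟩ := H.ld
    exact ⟨p, C, m, K, hp, hC, hm, hK, fun i T => h (g i) T⟩
  shift := by
    obtain ⟨m, hm, h⟩ := H.shift
    exact ⟨m, hm, fun i t u => h (g i) t u⟩

end proofs

/-- **Small values near large values, for `GL(m)` and for Dirichlet characters.** -/
theorem result :
    (∀ (ι : Type) (m : ℕ) (D : ι → Datum m), 1 ≤ m → (∀ i, (D i).Ok) → Molteni D →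
      Conclusion (fun i => (D i).f) (fun i T => (1 + |T|) * (D i).C)) ∧
    (∀ (ι : Type) (q : ι → ℕ) [∀ i, NeZero (q i)] (χ : (i : ι) → DirichletCharacter ℂ (q i)),
      (∀ i, 1 < q i ∧ (χ i).IsPrimitive) →
      Conclusion (fun i => DirichletCharacter.LFunction (χ i)) (fun i T => (q i : ℝ) * (1 + |T|))) := by
  refine ⟨fun ι m D hm hD hM => conclusion_of ?_, fun ι q _ χ h => conclusion_of ?_⟩
  · refine Pool.Agent.H983R4.GL.Fam.of_afam (p := m) (afam_gl hm hD hM) (by exact_mod_cast hm) ?_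
      fun _ _ => rfl
    intro i t
    have h1 := (D i).C_one (hD i).N_pos
    nlinarith [abs_nonneg t]
  · exact Fam.comp fam_dir (fun i => (⟨q i, (h i).1, χ i, (h i).2, trivial⟩ :
      H855R2.SF.DC (fun _ _ => True)))

end Pool.Agent.Results.MP_52e316_nt.SmallValuesCapacity
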